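import Mathlib

/-!
# Property B for 4-uniform shift-chains (and hence for all `k ≥ 4`)

A configuration is a quadruple `x1 < x2 < x3 < x4`.  We walk through a maximal chain of
configurations (one coordinate increases by one in each step) and keep track of the set `R` of
window colourings on `[x1, x4]` that extend to colourings good for the whole past.

Window colourings used (all up to complement):
* `pS j`   : one switch, after `j`;
* `pD m`   : a single dot at `m`;
* `pO a j` : the interval `(a, j]`;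
* `pTB a m`: everything beyond `a` except `m`;
* `pTA a l`: the point `a` and everything beyond `l`.

The invariant `Inv` says that there is an anchor `a` such that every switch position
`j ∈ [a, x4)` is available or is being prepared from `a`.
-/

set_option autoImplicit false

namespace Pool.Agent.ShiftChain

/-- A configuration: the four smallest elements of an edge, in increasing order. -/
abbrev Cfg := ℕ × ℕ × ℕ × ℕ

/-- Not all four colours are equal. -/
def Good (c : ℕ → Bool) (x : Cfg) : Prop :=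
  ¬ (c x.1 = c x.2.1 ∧ c x.1 = c x.2.2.1 ∧ c x.1 = c x.2.2.2)

/-- Some colouring that is good for all configurations in `H` agrees with `w` on `[x1, x4]`. -/
def R (H : Set Cfg) (x1 x4 : ℕ) (w : ℕ → Bool) : Prop :=
  ∃ c : ℕ → Bool, (∀ p ∈ H, Good c p) ∧ ∀ s, x1 ≤ s → s ≤ x4 → c s = w s

/-- All configurations in `H` live in `[0, x4]`. -/
def Bd (H : Set Cfg) (x4 : ℕ) : Prop :=
  ∀ p ∈ H, p.1 ≤ x4 ∧ p.2.1 ≤ x4 ∧ p.2.2.1 ≤ x4 ∧ p.2.2.2 ≤ x4

def pS (j : ℕ) : ℕ → Bool := fun s => decide (j < s)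
def pD (m : ℕ) : ℕ → Bool := fun s => decide (s = m)
def pO (a j : ℕ) : ℕ → Bool := fun s => decide (a < s ∧ s ≤ j)
def pTB (a m : ℕ) : ℕ → Bool := fun s => decide ((a < s ∧ s < m) ∨ m < s)
def pTA (a l : ℕ) : ℕ → Bool := fun s => decide (s = a ∨ l < s)

theorem R_step {H : Set Cfg} {x1 x4 y1 y2 y3 y4 : ℕ} {w w' : ℕ → Bool}
    (hR : R H x1 x4 w) (hB : Bd H x4) (h1 : x1 ≤ y1) (_h4 : x4 ≤ y4)
    (h12 : y1 < y2) (h23 : y2 < y3) (h34 : y3 < y4)
    (hw : ∀ s, y1 ≤ s → s ≤ x4 → w' s = w s)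
    (hg : Good w' (y1, y2, y3, y4)) :
    R (insert (y1, y2, y3, y4) H) y1 y4 w' := by
  obtain ⟨c, hc, hcw⟩ := hR
  have key : ∀ s, y1 ≤ s → s ≤ y4 → (if s ≤ x4 then c s else w' s) = w' s := by
    intro s hs1 hs2
    split_ifs with h
    · rw [hw s hs1 h]; exact hcw s (by omega) h
    · rfl
  refine ⟨fun s => if s ≤ x4 then c s else w' s, ?_, key⟩
  intro p hp
  rcases hp with hp | hp
  · subst hp
    unfold Good at hg ⊢
    simp only at hg ⊢
    rw [key y1 (by omega) (by omega), key y2 (by omega) (by omega), key y3 (by omega) (by omega),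
      key y4 (by omega) (by omega)]
    exact hg
  · have h := hB p hp
    have h2 := hc p hp
    unfold Good at h2 ⊢
    simp only [h.1, h.2.1, h.2.2.1, h.2.2.2, if_true]
    exact h2

theorem R_compl {H : Set Cfg} {x1 x4 : ℕ} {w : ℕ → Bool}
    (hR : R H x1 x4 w) : R H x1 x4 (fun s => !w s) := by
  obtain ⟨c, hc, hcw⟩ := hR
  refine ⟨fun s => !c s, ?_, fun s h1 h2 => by simp [hcw s h1 h2]⟩
  intro p hp
  have := hc p hp
  unfold Good at this ⊢
  simpa using this

/-- The invariant. -/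
def Inv (H : Set Cfg) (x1 x2 x3 x4 : ℕ) : Prop :=
  (∃ b, x3 ≤ b ∧ b < x4 ∧ (∀ j, x3 ≤ j → j ≤ b → R H x1 x4 (pS j)) ∧ R H x1 x4 (pD x3) ∧
    (∀ l, b < l → l < x4 → R H x1 x4 (pTA x3 l))) ∨
  (∃ a b c h, x1 ≤ a ∧ a < x3 ∧ a ≤ b ∧ b ≤ c ∧ c < x4 ∧ h ≤ x3 ∧ (x2 ≤ a → h = x3) ∧
    (∀ j, a ≤ j → j ≤ b → R H x1 x4 (pS j)) ∧
    (∀ j, b < j → j ≤ c → x1 < a → R H x1 x4 (pTA a j)) ∧
    (∀ j, b < j → j ≤ c → x1 = a → x2 ≤ j → R H x1 x4 (pO a j)) ∧
    (∀ j, c < j → j < x4 → h ≤ j → x2 ≤ j → R H x1 x4 (pO a j)) ∧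
    (∀ m, c + 2 ≤ m → m < x4 → R H x1 x4 (pTB a m)))

theorem good_S {j y1 y2 y3 y4 : ℕ} (h1 : y1 ≤ j) (h4 : j < y4) : Good (pS j) (y1, y2, y3, y4) := by
  simp only [Good, pS, decide_eq_decide]; omega

theorem good_D {m y1 y2 y4 : ℕ} (h1 : y1 < m) : Good (pD m) (y1, y2, m, y4) := by
  rintro ⟨-, h, -⟩
  have h' : ¬ (y1 = m) := by omega
  simp [pD, h'] at h

theorem good_TA {a l y1 y2 y3 y4 : ℕ} (h1 : y1 < a) (h2 : a < l) (h4 : l < y4) :
    Good (pTA a l) (y1, y2, y3, y4) := by
  simp only [Good, pTA, decide_eq_decide]; omega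

theorem good_TB {a m y1 y2 y3 y4 : ℕ} (h1 : y1 ≤ a) (h2 : a + 1 < m) (h4 : m < y4) :
    Good (pTB a m) (y1, y2, y3, y4) := by
  simp only [Good, pTB, decide_eq_decide]; omega

theorem good_O {a j y1 y2 y3 y4 : ℕ} (h1 : y1 ≤ a) (h4 : j < y4)
    (h : (a < y2 ∧ y2 ≤ j) ∨ (a < y3 ∧ y3 ≤ j)) :
    Good (pO a j) (y1, y2, y3, y4) := by
  simp only [Good, pO, decide_eq_decide]; omega

theorem step4 {H : Set Cfg} {x1 x2 x3 x4 : ℕ} (h12 : x1 < x2) (h23 : x2 < x3) (h34 : x3 < x4)
    (hB : Bd H x4) (hI : Inv H x1 x2 x3 x4) :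
    Inv (insert (x1, x2, x3, x4 + 1) H) x1 x2 x3 (x4 + 1) := by
  rcases hI with ⟨b, hb1, hb2, hS, hD, hTA⟩ | ⟨a, b, c, h, ha1, ha3, hab, hbc, hc4, hh3, hh, hS, hTA, hP, hO, hTB⟩
  · left
    refine ⟨b, hb1, by omega, ?_, ?_, ?_⟩
    · intro j hj1 hj2
      exact R_step (hS j hj1 hj2) hB le_rfl (by omega) h12 h23 (by omega) (fun _ _ _ => rfl)
        (good_S (by omega) (by omega))
    · exact R_step hD hB le_rfl (by omega) h12 h23 (by omega) (fun _ _ _ => rfl)
        (good_D (by omega))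
    · intro l hl1 hl2
      rcases Nat.lt_or_ge l x4 with hl | hl
      · exact R_step (hTA l hl1 hl) hB le_rfl (by omega) h12 h23 (by omega) (fun _ _ _ => rfl)
          (good_TA (by omega) (by omega) (by omega))
      · have hl' : l = x4 := by omega
        subst hl'
        refine R_step hD hB le_rfl (by omega) h12 h23 (by omega) ?_
          (good_TA (by omega) (by omega) (by omega))
        intro s hs1 hs2
        simp only [pTA, pD, decide_eq_decide]; omega
  · right
    refine ⟨a, b, c, h, ha1, ha3, hab, hbc, by omega, hh3, hh, ?_, ?_, ?_, ?_, ?_⟩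
    · intro j hj1 hj2
      exact R_step (hS j hj1 hj2) hB le_rfl (by omega) h12 h23 (by omega) (fun _ _ _ => rfl)
        (good_S (by omega) (by omega))
    · intro j hj1 hj2 hj3
      exact R_step (hTA j hj1 hj2 hj3) hB le_rfl (by omega) h12 h23 (by omega) (fun _ _ _ => rfl)
        (good_TA (by omega) (by omega) (by omega))
    · intro j hj1 hj2 hj3 hj4
      exact R_step (hP j hj1 hj2 hj3 hj4) hB le_rfl (by omega) h12 h23 (by omega)
        (fun _ _ _ => rfl) (good_O (by omega) (by omega) (by omega))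
    · intro j hj1 hj2 hj3 hj4
      rcases Nat.lt_or_ge j x4 with hj | hj
      · refine R_step (hO j hj1 hj hj3 hj4) hB le_rfl (by omega) h12 h23 (by omega)
          (fun _ _ _ => rfl) (good_O (by omega) (by omega) ?_)
        rcases Nat.lt_or_ge a x2 with hx | hx
        · left; omega
        · right; have := hh hx; omega
      · have hj' : j = x4 := by omega
        subst hj'
        refine R_step (hS a le_rfl hab) hB le_rfl (by omega) h12 h23 (by omega) ?_
          (good_O (by omega) (by omega) (by omega))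
        intro s hs1 hs2
        simp only [pO, pS, decide_eq_decide]; omega
    · intro m hm1 hm2
      rcases Nat.lt_or_ge m x4 with hm | hm
      · exact R_step (hTB m hm1 hm) hB le_rfl (by omega) h12 h23 (by omega)
          (fun _ _ _ => rfl) (good_TB (by omega) (by omega) (by omega))
      · have hm' : m = x4 := by omega
        subst hm'
        refine R_step (hO (m - 1) (by omega) (by omega) (by omega) (by omega)) hB le_rfl (by omega)
          h12 h23 (by omega) ?_ (good_TB (by omega) (by omega) (by omega))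
        intro s hs1 hs2
        simp only [pO, pTB, decide_eq_decide]; omega

theorem step3 {H : Set Cfg} {x1 x2 x3 x4 : ℕ} (h12 : x1 < x2) (h23 : x2 < x3) (h34 : x3 + 1 < x4)
    (hB : Bd H x4) (hI : Inv H x1 x2 x3 x4) :
    Inv (insert (x1, x2, x3 + 1, x4) H) x1 x2 (x3 + 1) x4 := by
  rcases hI with ⟨b, hb1, hb2, hS, hD, hTA⟩ | ⟨a, b, c, h, ha1, ha3, hab, hbc, hc4, hh3, hh, hS, hTA, hP, hO, hTB⟩
  · right
    refine ⟨x3, b, x4 - 1, x3 + 1, by omega, by omega, hb1, by omega, by omega, le_rfl,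
      fun _ => rfl, ?_, ?_, ?_, ?_, ?_⟩
    · intro j hj1 hj2
      exact R_step (hS j hj1 hj2) hB le_rfl le_rfl h12 (by omega) (by omega) (fun _ _ _ => rfl)
        (good_S (by omega) (by omega))
    · intro j hj1 hj2 hj3
      exact R_step (hTA j hj1 (by omega)) hB le_rfl le_rfl h12 (by omega) (by omega)
        (fun _ _ _ => rfl) (good_TA (by omega) (by omega) (by omega))
    · intro j hj1 hj2 hj3; omega
    · intro j hj1 hj2; omega
    · intro m hm1 hm2; omega
  · right
    refine ⟨a, b, c, if x2 ≤ a then x3 + 1 else h, ha1, by omega, hab, hbc, hc4, ?_, ?_, ?_, ?_, ?_, ?_, ?_⟩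
    · split_ifs <;> omega
    · intro h; rw [if_pos h]
    · intro j hj1 hj2
      exact R_step (hS j hj1 hj2) hB le_rfl le_rfl h12 (by omega) (by omega) (fun _ _ _ => rfl)
        (good_S (by omega) (by omega))
    · intro j hj1 hj2 hj3
      exact R_step (hTA j hj1 hj2 hj3) hB le_rfl le_rfl h12 (by omega) (by omega)
        (fun _ _ _ => rfl) (good_TA (by omega) (by omega) (by omega))
    · intro j hj1 hj2 hj3 hj4
      exact R_step (hP j hj1 hj2 hj3 hj4) hB le_rfl le_rfl h12 (by omega) (by omega)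
        (fun _ _ _ => rfl) (good_O (by omega) (by omega) (by omega))
    · intro j hj1 hj2 hj3 hj4
      split_ifs at hj3 with hx
      · have := hh hx
        exact R_step (hO j hj1 hj2 (by omega) hj4) hB le_rfl le_rfl h12 (by omega) (by omega)
          (fun _ _ _ => rfl) (good_O (by omega) (by omega) (by omega))
      · exact R_step (hO j hj1 hj2 (by omega) hj4) hB le_rfl le_rfl h12 (by omega) (by omega)
          (fun _ _ _ => rfl) (good_O (by omega) (by omega) (by omega))
    · intro m hm1 hm2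
      exact R_step (hTB m hm1 hm2) hB le_rfl le_rfl h12 (by omega) (by omega)
        (fun _ _ _ => rfl) (good_TB (by omega) (by omega) (by omega))

theorem step2 {H : Set Cfg} {x1 x2 x3 x4 : ℕ} (h12 : x1 < x2) (h23 : x2 + 1 < x3) (h34 : x3 < x4)
    (hB : Bd H x4) (hI : Inv H x1 x2 x3 x4) :
    Inv (insert (x1, x2 + 1, x3, x4) H) x1 (x2 + 1) x3 x4 := by
  rcases hI with ⟨b, hb1, hb2, hS, hD, hTA⟩ | ⟨a, b, c, h, ha1, ha3, hab, hbc, hc4, hh3, hh, hS, hTA, hP, hO, hTB⟩
  · left
    refine ⟨b, hb1, hb2, ?_, ?_, ?_⟩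
    · intro j hj1 hj2
      exact R_step (hS j hj1 hj2) hB le_rfl le_rfl (by omega) (by omega) (by omega)
        (fun _ _ _ => rfl) (good_S (by omega) (by omega))
    · exact R_step hD hB le_rfl le_rfl (by omega) (by omega) (by omega) (fun _ _ _ => rfl)
        (good_D (by omega))
    · intro l hl1 hl2
      exact R_step (hTA l hl1 hl2) hB le_rfl le_rfl (by omega) (by omega) (by omega)
        (fun _ _ _ => rfl) (good_TA (by omega) (by omega) (by omega))
  · right
    refine ⟨a, b, c, h, ha1, ha3, hab, hbc, hc4, hh3, fun hx => hh (by omega), ?_, ?_, ?_, ?_, ?_⟩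
    · intro j hj1 hj2
      exact R_step (hS j hj1 hj2) hB le_rfl le_rfl (by omega) (by omega) (by omega)
        (fun _ _ _ => rfl) (good_S (by omega) (by omega))
    · intro j hj1 hj2 hj3
      exact R_step (hTA j hj1 hj2 hj3) hB le_rfl le_rfl (by omega) (by omega) (by omega)
        (fun _ _ _ => rfl) (good_TA (by omega) (by omega) (by omega))
    · intro j hj1 hj2 hj3 hj4
      exact R_step (hP j hj1 hj2 hj3 (by omega)) hB le_rfl le_rfl (by omega) (by omega) (by omega)
        (fun _ _ _ => rfl) (good_O (by omega) (by omega) (by omega))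
    · intro j hj1 hj2 hj3 hj4
      refine R_step (hO j hj1 hj2 hj3 (by omega)) hB le_rfl le_rfl (by omega) (by omega) (by omega)
        (fun _ _ _ => rfl) (good_O (by omega) (by omega) ?_)
      rcases Nat.lt_or_ge a (x2 + 1) with hx | hx
      · left; omega
      · right; have := hh (by omega); omega
    · intro m hm1 hm2
      exact R_step (hTB m hm1 hm2) hB le_rfl le_rfl (by omega) (by omega) (by omega)
        (fun _ _ _ => rfl) (good_TB (by omega) (by omega) (by omega))

theorem step1 {H : Set Cfg} {x1 x2 x3 x4 : ℕ} (h12 : x1 + 1 < x2) (h23 : x2 < x3) (h34 : x3 < x4)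
    (hB : Bd H x4) (hI : Inv H x1 x2 x3 x4) :
    Inv (insert (x1 + 1, x2, x3, x4) H) (x1 + 1) x2 x3 x4 := by
  rcases hI with ⟨b, hb1, hb2, hS, hD, hTA⟩ | ⟨a, b, c, h, ha1, ha3, hab, hbc, hc4, hh3, hh, hS, hTA, hP, hO, hTB⟩
  · left
    refine ⟨b, hb1, hb2, ?_, ?_, ?_⟩
    · intro j hj1 hj2
      exact R_step (hS j hj1 hj2) hB (by omega) le_rfl (by omega) (by omega) (by omega)
        (fun _ _ _ => rfl) (good_S (by omega) (by omega))
    · exact R_step hD hB (by omega) le_rfl (by omega) (by omega) (by omega) (fun _ _ _ => rfl)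
        (good_D (by omega))
    · intro l hl1 hl2
      exact R_step (hTA l hl1 hl2) hB (by omega) le_rfl (by omega) (by omega) (by omega)
        (fun _ _ _ => rfl) (good_TA (by omega) (by omega) (by omega))
  · rcases Nat.lt_or_ge x1 a with hx1a | hx1a
    · -- `x1` does not pass `a`
      right
      refine ⟨a, b, c, h, by omega, ha3, hab, hbc, hc4, hh3, hh, ?_, ?_, ?_, ?_, ?_⟩
      · intro j hj1 hj2
        exact R_step (hS j hj1 hj2) hB (by omega) le_rfl (by omega) (by omega) (by omega)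
          (fun _ _ _ => rfl) (good_S (by omega) (by omega))
      · intro j hj1 hj2 hj3
        exact R_step (hTA j hj1 hj2 hx1a) hB (by omega) le_rfl (by omega) (by omega) (by omega)
          (fun _ _ _ => rfl) (good_TA (by omega) (by omega) (by omega))
      · intro j hj1 hj2 hj3 hj4
        refine R_step (R_compl (hTA j hj1 hj2 hx1a)) hB (by omega) le_rfl (by omega) (by omega)
          (by omega) ?_ (good_O (by omega) (by omega) (by omega))
        intro s hs1 hs2
        simp only [pO, pTA, ← decide_not, decide_eq_decide]; omega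
      · intro j hj1 hj2 hj3 hj4
        refine R_step (hO j hj1 hj2 hj3 hj4) hB (by omega) le_rfl (by omega) (by omega)
          (by omega) (fun _ _ _ => rfl) (good_O (by omega) (by omega) ?_)
        rcases Nat.lt_or_ge a x2 with hx | hx
        · left; omega
        · right; have := hh hx; omega
      · intro m hm1 hm2
        exact R_step (hTB m hm1 hm2) hB (by omega) le_rfl (by omega) (by omega) (by omega)
          (fun _ _ _ => rfl) (good_TB (by omega) (by omega) (by omega))
    · have hx1a' : x1 = a := by omega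
      subst hx1a'
      -- all switches `j` in `[x2, x4 - 1]` with `j ≥ h` (if `j > c`) are available
      have hJ : ∀ j, x2 ≤ j → j < x4 → (c < j → h ≤ j) →
          R (insert (x1 + 1, x2, x3, x4) H) (x1 + 1) x4 (pS j) := by
        intro j hj1 hj2 hj3
        rcases Nat.lt_or_ge b j with hbj | hbj
        · have hOj : R H x1 x4 (pO x1 j) := by
            rcases Nat.lt_or_ge c j with hcj | hcj
            · exact hO j hcj hj2 (hj3 hcj) hj1
            · exact hP j hbj hcj rfl hj1
          refine R_step (R_compl hOj) hB (by omega) le_rfl (by omega) (by omega)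
            (by omega) ?_ (good_S (by omega) (by omega))
          intro s hs1 hs2
          simp only [pO, pS, ← decide_not, decide_eq_decide]; omega
        · exact R_step (hS j (by omega) hbj) hB (by omega) le_rfl (by omega) (by omega) (by omega)
            (fun _ _ _ => rfl) (good_S (by omega) (by omega))
      rcases Nat.lt_or_ge (c + 1) x3 with hc3 | hc3
      · left
        refine ⟨x4 - 1, by omega, by omega, ?_, ?_, ?_⟩
        · intro j hj1 hj2
          exact hJ j (by omega) (by omega) (fun _ => by omega)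
        · refine R_step (R_compl (hTB x3 (by omega) (by omega))) hB (by omega) le_rfl (by omega)
            (by omega) (by omega) ?_ (good_D (by omega))
          intro s hs1 hs2
          simp only [pD, pTB, ← decide_not, decide_eq_decide]; omega
        · intro l hl1 hl2; omega
      · right
        refine ⟨x2, x4 - 1, x4 - 1, x3, by omega, by omega, by omega, by omega, by omega, le_rfl,
          fun _ => rfl, ?_, ?_, ?_, ?_, ?_⟩
        · intro j hj1 hj2
          exact hJ j hj1 (by omega) (fun _ => by omega)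
        · intro j hj1 hj2; omega
        · intro j hj1 hj2; omega
        · intro j hj1 hj2; omega
        · intro j hj1 hj2; omega

end Pool.Agent.ShiftChain

namespace Pool.Agent.ShiftChain

theorem Bd_insert {H : Set Cfg} {x4 y1 y2 y3 y4 : ℕ} (hB : Bd H x4) (h4 : x4 ≤ y4)
    (h12 : y1 < y2) (h23 : y2 < y3) (h34 : y3 < y4) : Bd (insert (y1, y2, y3, y4) H) y4 := by
  intro p hp
  rcases hp with hp | hp
  · subst hp; simp only; omega
  · have := hB p hp; omega

/-- From any configuration we can walk to any larger one keeping the invariant. -/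
theorem walk (n : ℕ) : ∀ (H : Set Cfg) (x1 x2 x3 x4 y1 y2 y3 y4 : ℕ),
    x1 < x2 → x2 < x3 → x3 < x4 → y1 < y2 → y2 < y3 → y3 < y4 →
    x1 ≤ y1 → x2 ≤ y2 → x3 ≤ y3 → x4 ≤ y4 →
    (y1 - x1) + (y2 - x2) + (y3 - x3) + (y4 - x4) = n →
    (x1, x2, x3, x4) ∈ H → Bd H x4 → Inv H x1 x2 x3 x4 →
    ∃ H' : Set Cfg, H ⊆ H' ∧ (y1, y2, y3, y4) ∈ H' ∧ Bd H' y4 ∧ Inv H' y1 y2 y3 y4 := by
  induction n with
  | zero =>
    intro H x1 x2 x3 x4 y1 y2 y3 y4 _ _ _ _ _ _ h1 h2 h3 h4 hn hx hB hI
    obtain rfl : y1 = x1 := by omega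
    obtain rfl : y2 = x2 := by omega
    obtain rfl : y3 = x3 := by omega
    obtain rfl : y4 = x4 := by omega
    exact ⟨H, subset_rfl, hx, hB, hI⟩
  | succ n ih =>
    intro H x1 x2 x3 x4 y1 y2 y3 y4 hx12 hx23 hx34 hy12 hy23 hy34 h1 h2 h3 h4 hn hx hB hI
    have hsub : ∀ q : Cfg, H ⊆ insert q H := fun q => Set.subset_insert q H
    by_cases c4 : x4 < y4
    · obtain ⟨H', hH', r1, r2, r3⟩ := ih (insert (x1, x2, x3, x4 + 1) H) x1 x2 x3 (x4 + 1) y1 y2 y3 y4
        hx12 hx23 (by omega) hy12 hy23 hy34 h1 h2 h3 (by omega) (by omega) (Set.mem_insert _ _)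
        (Bd_insert hB (by omega) hx12 hx23 (by omega)) (step4 hx12 hx23 hx34 hB hI)
      exact ⟨H', (hsub _).trans hH', r1, r2, r3⟩
    · by_cases c3 : x3 < y3
      · obtain ⟨H', hH', r1, r2, r3⟩ := ih (insert (x1, x2, x3 + 1, x4) H) x1 x2 (x3 + 1) x4 y1 y2 y3 y4
          hx12 (by omega) (by omega) hy12 hy23 hy34 h1 h2 (by omega) h4 (by omega)
          (Set.mem_insert _ _)
          (Bd_insert hB le_rfl hx12 (by omega) (by omega)) (step3 hx12 hx23 (by omega) hB hI)
        exact ⟨H', (hsub _).trans hH', r1, r2, r3⟩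
      · by_cases c2 : x2 < y2
        · obtain ⟨H', hH', r1, r2, r3⟩ := ih (insert (x1, x2 + 1, x3, x4) H) x1 (x2 + 1) x3 x4 y1 y2 y3 y4
            (by omega) (by omega) (by omega) hy12 hy23 hy34 h1 (by omega) h3 h4 (by omega)
            (Set.mem_insert _ _)
            (Bd_insert hB le_rfl (by omega) (by omega) (by omega))
            (step2 hx12 (by omega) (by omega) hB hI)
          exact ⟨H', (hsub _).trans hH', r1, r2, r3⟩
        · obtain ⟨H', hH', r1, r2, r3⟩ := ih (insert (x1 + 1, x2, x3, x4) H) (x1 + 1) x2 x3 x4 y1 y2 y3 y4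
            (by omega) (by omega) (by omega) hy12 hy23 hy34 (by omega) h2 h3 h4 (by omega)
            (Set.mem_insert _ _)
            (Bd_insert hB le_rfl (by omega) (by omega) (by omega))
            (step1 (by omega) (by omega) (by omega) hB hI)
          exact ⟨H', (hsub _).trans hH', r1, r2, r3⟩

/-- The invariant holds at the start. -/
theorem Inv_start {x1 x2 x3 x4 : ℕ} (h12 : x1 < x2) (h23 : x2 < x3) (h34 : x3 < x4) :
    Inv {(x1, x2, x3, x4)} x1 x2 x3 x4 := by
  right
  refine ⟨x2, x4 - 1, x4 - 1, x3, by omega, by omega, by omega, by omega, by omega, le_rfl,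
    fun _ => rfl, ?_, ?_, ?_, ?_, ?_⟩
  · intro j hj1 hj2
    refine ⟨pS j, ?_, fun _ _ _ => rfl⟩
    intro p hp
    rw [Set.mem_singleton_iff] at hp
    subst hp
    exact good_S (by omega) (by omega)
  · intro j hj1 hj2; omega
  · intro j hj1 hj2; omega
  · intro j hj1 hj2; omega
  · intro j hj1 hj2; omega

theorem Inv_colouring {H : Set Cfg} {x1 x2 x3 x4 : ℕ} (hI : Inv H x1 x2 x3 x4) :
    ∃ c : ℕ → Bool, ∀ p ∈ H, Good c p := by
  rcases hI with ⟨b, hb1, hb2, hS, hD, hTA⟩ | ⟨a, b, c, h, ha1, ha3, hab, hbc, hc4, hh3, hh, hS, hTA, hP, hO, hTB⟩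
  · obtain ⟨c, hc, -⟩ := hD
    exact ⟨c, hc⟩
  · obtain ⟨c, hc, -⟩ := hS a le_rfl hab
    exact ⟨c, hc⟩

/-- Increasing configurations. -/
def Incr (p : Cfg) : Prop := p.1 < p.2.1 ∧ p.2.1 < p.2.2.1 ∧ p.2.2.1 < p.2.2.2

/-- Coordinatewise order. -/
def Le (p q : Cfg) : Prop := p.1 ≤ q.1 ∧ p.2.1 ≤ q.2.1 ∧ p.2.2.1 ≤ q.2.2.1 ∧ p.2.2.2 ≤ q.2.2.2

theorem chain_colouring (F : Finset Cfg) (hinc : ∀ p ∈ F, Incr p)
    (hch : ∀ p ∈ F, ∀ q ∈ F, Le p q ∨ Le q p) : ∃ c : ℕ → Bool, ∀ p ∈ F, Good c p := by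
  classical
  have key : ∀ F : Finset Cfg, (∀ p ∈ F, Incr p) → (∀ p ∈ F, ∀ q ∈ F, Le p q ∨ Le q p) →
      F = ∅ ∨ ∃ (H : Set Cfg) (y : Cfg), y ∈ F ∧ (∀ p ∈ F, p ∈ H) ∧ Bd H y.2.2.2 ∧
        Inv H y.1 y.2.1 y.2.2.1 y.2.2.2 := by
    intro F
    induction F using Finset.induction_on_max_value
      (fun p : Cfg => p.1 + p.2.1 + p.2.2.1 + p.2.2.2) with
    | empty => intro _ _; left; rfl
    | insert a s has hmax ih =>
      intro hinc hch
      right
      have hinc' : ∀ p ∈ s, Incr p := fun p hp => hinc p (Finset.mem_insert_of_mem hp)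
      have hch' : ∀ p ∈ s, ∀ q ∈ s, Le p q ∨ Le q p := fun p hp q hq =>
        hch p (Finset.mem_insert_of_mem hp) q (Finset.mem_insert_of_mem hq)
      obtain ⟨a1, a2, a3, a4⟩ := a
      have ha : Incr (a1, a2, a3, a4) := hinc _ (Finset.mem_insert_self _ _)
      simp only [Incr] at ha
      rcases ih hinc' hch' with hs | ⟨H, y, hy, hsub, hB, hI⟩
      · subst hs
        refine ⟨{(a1, a2, a3, a4)}, (a1, a2, a3, a4), Finset.mem_insert_self _ _, ?_, ?_, ?_⟩
        · intro p hp
          simpa using hp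
        · intro p hp
          rw [Set.mem_singleton_iff] at hp
          subst hp
          simp only
          omega
        · exact Inv_start ha.1 ha.2.1 ha.2.2
      · obtain ⟨y1, y2, y3, y4⟩ := y
        have hyI : Incr (y1, y2, y3, y4) := hinc' _ hy
        simp only [Incr] at hyI
        have hle : Le (y1, y2, y3, y4) (a1, a2, a3, a4) := by
          have h1 := hmax _ hy
          rcases hch _ (Finset.mem_insert_of_mem hy) _ (Finset.mem_insert_self _ _) with h | h
          · exact h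
          · simp only [Le] at h ⊢
            simp only at h1
            omega
        simp only [Le] at hle
        obtain ⟨H', hH', r1, r2, r3⟩ := walk _ H y1 y2 y3 y4 a1 a2 a3 a4 hyI.1 hyI.2.1 hyI.2.2
          ha.1 ha.2.1 ha.2.2 hle.1 hle.2.1 hle.2.2.1 hle.2.2.2 rfl (hsub _ hy) hB hI
        refine ⟨H', (a1, a2, a3, a4), Finset.mem_insert_self _ _, ?_, r2, r3⟩
        intro p hp
        rcases Finset.mem_insert.mp hp with hp | hp
        · subst hp; exact r1
        · exact hH' (hsub p hp)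
  rcases key F hinc hch with h | ⟨H, y, _, hsub, _, hI⟩
  · subst h
    exact ⟨fun _ => true, fun p hp => absurd hp (Finset.notMem_empty p)⟩
  · obtain ⟨c, hc⟩ := Inv_colouring hI
    exact ⟨c, fun p hp => hc p (hsub p hp)⟩

end Pool.Agent.ShiftChain

namespace Pool.Agent.ShiftChain

/-- The configuration formed by the four smallest elements of a `k`-set, `k ≥ 4`. -/
noncomputable def cfg (k : ℕ) (hk : 4 ≤ k) (A : Finset ℕ) : Cfg :=
  if h : A.card = k then
    (A.orderEmbOfFin h ⟨0, by omega⟩, A.orderEmbOfFin h ⟨1, by omega⟩,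
      A.orderEmbOfFin h ⟨2, by omega⟩, A.orderEmbOfFin h ⟨3, by omega⟩)
  else (0, 1, 2, 3)

theorem main (k : ℕ) (hk : 4 ≤ k) (H : Finset (Finset ℕ))
    (hcard : ∀ A ∈ H, A.card = k)
    (hch : ∀ A ∈ H, ∀ B ∈ H, ∀ (hA : A.card = k) (hB : B.card = k),
        (∀ i : Fin k, A.orderEmbOfFin hA i ≤ B.orderEmbOfFin hB i) ∨
        (∀ i : Fin k, B.orderEmbOfFin hB i ≤ A.orderEmbOfFin hA i)) :
    ∃ c : ℕ → Bool, ∀ A ∈ H, ∃ x ∈ A, ∃ y ∈ A, c x ≠ c y := by
  classical
  have hcfg : ∀ A ∈ H, ∀ h : A.card = k, cfg k hk A =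
      (A.orderEmbOfFin h ⟨0, by omega⟩, A.orderEmbOfFin h ⟨1, by omega⟩,
      A.orderEmbOfFin h ⟨2, by omega⟩, A.orderEmbOfFin h ⟨3, by omega⟩) := by
    intro A _ h
    unfold cfg
    rw [dif_pos h]
  obtain ⟨c, hc⟩ := chain_colouring (H.image (cfg k hk)) (by
      intro p hp
      obtain ⟨A, hA, rfl⟩ := Finset.mem_image.mp hp
      have h := hcard A hA
      rw [hcfg A hA h]
      refine ⟨?_, ?_, ?_⟩
      · exact (A.orderEmbOfFin h).strictMono (by simp [Fin.lt_def])
      · exact (A.orderEmbOfFin h).strictMono (by simp [Fin.lt_def])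
      · exact (A.orderEmbOfFin h).strictMono (by simp [Fin.lt_def])) (by
      intro p hp q hq
      obtain ⟨A, hA, rfl⟩ := Finset.mem_image.mp hp
      obtain ⟨B, hB, rfl⟩ := Finset.mem_image.mp hq
      have h := hcard A hA
      have h' := hcard B hB
      rw [hcfg A hA h, hcfg B hB h']
      rcases hch A hA B hB h h' with h1 | h1
      · left; exact ⟨h1 _, h1 _, h1 _, h1 _⟩
      · right; exact ⟨h1 _, h1 _, h1 _, h1 _⟩)
  refine ⟨c, fun A hA => ?_⟩
  have h := hcard A hA
  have hg := hc (cfg k hk A) (Finset.mem_image_of_mem _ hA)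
  rw [hcfg A hA h] at hg
  by_contra hcon
  push Not at hcon
  apply hg
  have hm : ∀ i : Fin k, A.orderEmbOfFin h i ∈ A := fun i => Finset.orderEmbOfFin_mem A h i
  exact ⟨hcon _ (hm _) _ (hm _), hcon _ (hm _) _ (hm _), hcon _ (hm _) _ (hm _)⟩

end Pool.Agent.ShiftChain
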